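import Pool.Agent.Helper68.ES.St1

set_option autoImplicit false

open MeasureTheory Set Filter Topology
open scoped ENNReal RealInnerProductSpace

namespace Pool.Agent.Helper21.ES

open Pool.Agent.Helper68.ES Pool.Agent.Helper68.EP Pool.Agent.Helper20.RG
open Pool.Agent.Helper20.RL (RQ Rich BM Fml Hit)
open Pool.Agent.Helper68.LM (Pl BB Bd Av HL ft fm DQ)

theorem DRI_c0 : Continuous fun y : Pl => y 0 := by
  unfold Pl
  fun_prop

theorem DRI_cpr (s : ℝ) : Continuous fun y : Pl => pr s y := by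
  unfold pr Pl
  fun_prop

/-- the largest admissible width -/
noncomputable def DRI_B (F : Set Pl) (s : ℝ) (a b : ℤ) (θ : ℝ) (z : Pl) : ℤ :=
  sSup {w : ℤ | w ≤ b ∧ Rich F s a w θ z}

theorem DRI_bdd (F : Set Pl) (s : ℝ) (a b : ℤ) (θ : ℝ) (z : Pl) :
    BddAbove {w : ℤ | w ≤ b ∧ Rich F s a w θ z} := ⟨b, fun _ h => h.1⟩

theorem DRI_B_mem {F : Set Pl} {s : ℝ} {a b : ℤ} {θ : ℝ} {z : Pl} (hz : z ∈ Wd F s a b θ) :
    DRI_B F s a b θ z ≤ b ∧ Rich F s a (DRI_B F s a b θ z) θ z := by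
  have hne : {w : ℤ | w ≤ b ∧ Rich F s a w θ z}.Nonempty := hz
  exact Int.csSup_mem hne (DRI_bdd F s a b θ z)

theorem DRI_le_B {F : Set Pl} {s : ℝ} {a b : ℤ} {θ : ℝ} {z : Pl} {w : ℤ} (hw : w ≤ b)
    (h : Rich F s a w θ z) : w ≤ DRI_B F s a b θ z :=
  le_csSup (DRI_bdd F s a b θ z) ⟨hw, h⟩

theorem hDRI (hPT : Pool.Agent.Helper20.RG.StPT) (hLGR : Pool.Agent.Helper20.RL.StLGR)
    (hLFM : Pool.Agent.Helper20.RL.StLFM) (hLER : Pool.Agent.Helper20.RL.StLER) :
    Pool.Agent.Helper68.ES.StDRI := by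
  intro F s a b θ hF hθ
  obtain ⟨hpt, -, -, -, -, -, -, -⟩ := hPT
  obtain ⟨-, hcell, hnest, -, -⟩ := hLGR
  refine ⟨?_, ?_, ?_, ?_, ?_⟩
  · intro ρ
    have h : Ri F s a b θ ρ = ⋃ z : Pl, ⋃ w : ℤ, ⋃ (_ : w ≤ b ∧ Rich F s a w θ z),
        {y : Pl | |y 0 - z 0| < ρ} ∩ {y : Pl | |pr s y - pr s z| < 3 * (2 : ℝ) ^ w} := by
      ext y
      simp only [Ri, mem_setOf_eq, mem_iUnion, mem_inter_iff, exists_prop]
      constructor
      · rintro ⟨z, w, h1, h2, h3, h4⟩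
        exact ⟨z, w, ⟨h1, h2⟩, h3, h4⟩
      · rintro ⟨z, w, ⟨h1, h2⟩, h3, h4⟩
        exact ⟨z, w, h1, h2, h3, h4⟩
    rw [h]
    refine isOpen_iUnion fun z => isOpen_iUnion fun w => isOpen_iUnion fun _ => ?_
    refine IsOpen.inter ?_ ?_
    · exact isOpen_lt ((DRI_c0.sub continuous_const).abs) continuous_const
    · exact isOpen_lt (((DRI_cpr s).sub continuous_const).abs) continuous_const
  · rintro ρ ρ' lam y ⟨z, w, h1, h2, h3, h4⟩ hlam
    have e0 : (y + lam • E s) 0 = y 0 + lam := by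
      show y 0 + lam * (pt 1 s) 0 = y 0 + lam
      rw [(hpt 1 s).1, mul_one]
    have e1 : (y + lam • E s) 1 = y 1 + lam * s := by
      show y 1 + lam * (pt 1 s) 1 = y 1 + lam * s
      rw [(hpt 1 s).2]
    refine ⟨z, w, h1, h2, ?_, ?_⟩
    · rw [e0]
      have e2 : y 0 + lam - z 0 = (y 0 - z 0) + lam := by ring
      rw [e2]
      exact (abs_add_le _ _).trans_lt (by linarith)
    · have e3 : pr s (y + lam • E s) = pr s y := by
        unfold pr
        rw [e0, e1]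
        ring
      rw [e3]
      exact h4
  · rintro ρ z hρ ⟨w, h1, h2⟩
    refine ⟨z, w, h1, h2, ?_, ?_⟩
    · simpa using hρ
    · simp only [sub_self, abs_zero]
      positivity
  · intro ρ hρ
    have hFml : Fml F s θ (Wd F s a b θ) (fun _ => a) (DRI_B F s a b θ) := by
      constructor
      · intro z hz z' hz'
        obtain ⟨hB1, hB2⟩ := DRI_B_mem hz
        have hcells : ∀ w : ℤ, DRI_B F s a b θ z ≤ w → RQ s a w z' = RQ s a w z := by
          intro w hw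
          exact hcell s a w z z' (hnest s a _ a w z le_rfl hw hz')
        have hr' : Rich F s a (DRI_B F s a b θ z) θ z' := by
          unfold Rich
          rw [hcells _ le_rfl]
          exact hB2
        have hz'W : z' ∈ Wd F s a b θ := ⟨_, hB1, hr'⟩
        refine ⟨hz'W, rfl, le_antisymm ?_ (DRI_le_B hB1 hr')⟩
        obtain ⟨hC1, hC2⟩ := DRI_B_mem hz'W
        apply DRI_le_B hC1
        unfold Rich at hC2 ⊢
        rw [hcells _ (DRI_le_B hB1 hr')] at hC2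
        exact hC2
      · intro z hz
        exact (DRI_B_mem hz).2
    have h := hLER F s θ θ (Wd F s a b θ) (Wd F s a b θ) (fun _ => a) (DRI_B F s a b θ) a 2 3
      hF.1 hFml hθ hθ le_rfl (fun z hz => ⟨le_rfl, (DRI_B_mem hz).2⟩)
    have e : ((2 * ((2 : ℕ) : ℝ) + 1) * (2 * ((3 : ℕ) : ℝ) + 1) / θ) = 35 / θ := by
      push_cast
      ring
    rw [e] at h
    refine (measure_mono ?_).trans h
    rintro y ⟨z, w, h1, h2, h3, h4⟩
    refine ⟨z, ⟨w, h1, h2⟩, ?_, ?_⟩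
    · push_cast
      exact h3.le.trans hρ
    · push_cast
      refine h4.le.trans ?_
      have h5 : (2 : ℝ) ^ w ≤ (2 : ℝ) ^ (DRI_B F s a b θ z) :=
        zpow_le_zpow_right₀ (by norm_num) (DRI_le_B h1 h2)
      linarith
  · have h : Wd F s a b θ = ⋃ w : ℤ, ⋃ (_ : w ≤ b), {z | Rich F s a w θ z} := by
      ext z
      simp only [Wd, mem_setOf_eq, mem_iUnion, exists_prop]
    rw [h]
    exact MeasurableSet.iUnion fun w => MeasurableSet.iUnion fun _ => (hLFM.1 F s a w θ).1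

end Pool.Agent.Helper21.ES
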