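import Pool.Agent.Helper68.ES.St5

/-!
# Project ES (MP_cb927e_an), module TRW: too many hits
-/

set_option autoImplicit false

open MeasureTheory Set Filter Topology
open scoped ENNReal RealInnerProductSpace

namespace Pool.Agent.Helper21.ES

open Pool.Agent.Helper68.ES Pool.Agent.Helper68.EP Pool.Agent.Helper20.RG
open Pool.Agent.Helper20.RL (RQ Rich BM Fml Hit)
open Pool.Agent.Helper68.LM (Pl BB Bd Av HL ft fm DQ)

theorem TRW_BM {f : Pl → ℝ} (hf : BB f) (m : ℤ) : BM (Gf f m) := by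
  obtain ⟨hm, K, hK, hs⟩ := hf
  refine ⟨?_, ?_⟩
  · have h1 : MeasurableSet {x | (2 : ℝ) ^ m ≤ f x} := measurableSet_le measurable_const hm
    have h2 : MeasurableSet {x | f x < (2 : ℝ) ^ (m + 1)} := measurableSet_lt hm measurable_const
    exact h1.inter h2
  · refine (Metric.isBounded_closedBall (x := (0 : Pl)) (r := K)).subset ?_
    intro x hx
    rw [mem_closedBall_zero_iff]
    by_contra h
    have h0 := hs x (not_le.mp h)
    have h1 := hx.1
    rw [h0] at h1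
    have h2 : (0 : ℝ) < (2 : ℝ) ^ m := by positivity
    linarith

/-- a polynomial is smaller than an exponential -/
theorem TRW_poly {e : ℝ} (he : 0 < e) {u : ℕ} (hu : 1 ≤ u) :
    ((2 * u + 1 : ℕ) : ℝ) ^ 2 ≤ 9 * (48 / e) ^ 2 * (2 : ℝ) ^ (e / 12 * u) := by
  have hu1 : (1 : ℝ) ≤ u := by exact_mod_cast hu
  have h1 : e * u / 48 ≤ (2 : ℝ) ^ (e * u / 24) := by
    have h2 : e * u / 24 * Real.log 2 + 1 ≤ (2 : ℝ) ^ (e * u / 24) := by
      have h3 := Real.add_one_le_exp (Real.log 2 * (e * u / 24))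
      rw [Real.rpow_def_of_pos (by norm_num)]
      linarith
    have h4 : 0.5 ≤ Real.log 2 := by have := Real.log_two_gt_d9; linarith
    have h5 : 0 ≤ e * u / 24 := by positivity
    have h6 := mul_le_mul_of_nonneg_left h4 h5
    linarith
  have h7 : (u : ℝ) ≤ 48 / e * (2 : ℝ) ^ (e * u / 24) := by
    rw [div_mul_eq_mul_div, le_div_iff₀ he]
    linarith
  have h8 : ((2 : ℝ) ^ (e * u / 24)) ^ 2 = (2 : ℝ) ^ (e / 12 * u) := by
    rw [← Real.rpow_natCast, ← Real.rpow_mul (by norm_num)]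
    congr 1
    push_cast
    ring
  have h9 : ((2 * u + 1 : ℕ) : ℝ) ≤ 3 * u := by
    push_cast
    linarith
  calc ((2 * u + 1 : ℕ) : ℝ) ^ 2 ≤ (3 * (48 / e * (2 : ℝ) ^ (e * u / 24))) ^ 2 := by
        apply pow_le_pow_left₀ (by positivity)
        linarith
    _ = 9 * (48 / e) ^ 2 * ((2 : ℝ) ^ (e * u / 24)) ^ 2 := by ring
    _ = _ := by rw [h8]

/-- one scale -/
theorem TRW_one (hMKV : StMKV) (hPXH : StPXH) (P : Par) (Δ : Dat) (ct : ℕ → ℕ → Pl) (u q i : ℕ) (k : ℤ)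
    (E : Set Pl) (n : ℝ) (hn0 : 0 < n) (hE : BM (Eg E (DD P u) q k)) :
    volume {x | n ≤ hn P Δ ct u q i k E x} ≤
      ENNReal.ofReal (1 / n * ((2 : ℝ) ^ u * (35 / th i))) * volume (Eg E (DD P u) q k) := by
  have hth : 0 < th i := by unfold th; positivity
  have hfin : ∀ x, (Hs Δ ct u k (th i) (Eg E (DD P u) q k) x).Finite := fun x =>
    (Set.finite_Iio (2 ^ u)).subset fun j hj => hj.1
  have h1 : {x | n ≤ hn P Δ ct u q i k E x} ⊆ {x : Pl | ∃ V : Finset ℕ,
      (∀ j ∈ V, x ∈ {x | j ∈ Hs Δ ct u k (th i) (Eg E (DD P u) q k) x}) ∧ n ≤ (V.card : ℝ)} := by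
    intro x hx
    refine ⟨(hfin x).toFinset, fun j hj => (hfin x).mem_toFinset.1 hj, ?_⟩
    rw [← Set.ncard_eq_toFinset_card _ (hfin x)]
    exact hx
  have h2 := hMKV ℕ (fun j => {x | j ∈ Hs Δ ct u k (th i) (Eg E (DD P u) q k) x}) n hn0
  have h3 : ∑' j : ℕ, volume {x | j ∈ Hs Δ ct u k (th i) (Eg E (DD P u) q k) x} =
      ∑ j ∈ Finset.range (2 ^ u), volume {x | j ∈ Hs Δ ct u k (th i) (Eg E (DD P u) q k) x} := by
    refine tsum_eq_sum ?_
    intro j hj
    rw [Finset.mem_range] at hj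
    have : {x | j ∈ Hs Δ ct u k (th i) (Eg E (DD P u) q k) x} = ∅ := by
      ext x
      simp only [mem_ofPred_eq, mem_empty_iff_false, iff_false]
      exact fun h => hj h.1
    rw [this, measure_empty]
  have h4 : ∑ j ∈ Finset.range (2 ^ u), volume {x | j ∈ Hs Δ ct u k (th i) (Eg E (DD P u) q k) x} ≤
      ((2 : ℝ≥0∞) ^ u) * (ENNReal.ofReal (35 / th i) * volume (Eg E (DD P u) q k)) := by
    refine (Finset.sum_le_card_nsmul _ _ _ fun j _ => (hPXH Δ ct u j k (th i) _ hE hth).2.2.2).trans ?_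
    rw [Finset.card_range, nsmul_eq_mul]
    push_cast
    exact le_rfl
  calc _ ≤ _ := measure_mono h1
    _ ≤ _ := h2
    _ ≤ ENNReal.ofReal (1 / n) *
        (((2 : ℝ≥0∞) ^ u) * (ENNReal.ofReal (35 / th i) * volume (Eg E (DD P u) q k))) := by
        rw [h3]
        gcongr
    _ = _ := by
        rw [ENNReal.ofReal_mul (by positivity), ENNReal.ofReal_mul (by positivity),
          ENNReal.ofReal_pow (by norm_num), ENNReal.ofReal_ofNat]
        ring

theorem hTRW (hMKV : StMKV) (hEGS : StEGS) (hPXH : StPXH)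
    (hLSQ : Pool.Agent.Helper61.EPL.StLSQ) : Pool.Agent.Helper68.ES.StTRW := by
  intro P e he hep
  have hs1 : 1 < P.s := P.hs
  have hsp : P.s < P.p := P.hsp
  have hp2 : P.p < 2 := P.hp
  have hp1 : 1 < P.p := hs1.trans hsp
  obtain ⟨C₀, hC₀, HL4⟩ := hLSQ P.p hp1 hp2
  set K : ℝ := 1260 * (9 * (48 / e) ^ 2) with hK
  have hK0 : 0 < K := by positivity
  refine ⟨1, max 1 (K * (1 / (1 - (2 : ℝ) ^ (-(e / 4))))), le_rfl, le_max_left _ _, ?_⟩
  intro Δ ct f hSy hf hf0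
  have one : ∀ (l : ℤ) (u q i : ℕ), 1 ≤ u → Crit P.p (e / 6) u q i →
      ∑' k : ℤ, volume {x | (2 : ℝ) ^ ((i : ℝ) + e / 2 * u) ≤ hn P Δ ct u q i k (Gf f (l + (u : ℤ))) x} ≤
        ENNReal.ofReal (1260 * (2 : ℝ) ^ ((P.p - e / 3) * u)) * volume (Gf f (l + (u : ℤ))) := by
    intro l u q i hu hcr
    have hu1 : (1 : ℝ) ≤ u := by exact_mod_cast hu
    have hB : BM (Gf f (l + (u : ℤ))) := TRW_BM hf _
    have hD : 0 < DD P u := by unfold DD; positivity
    have hq1 : 1 ≤ q := by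
      have h1 := (abs_le.1 hcr.1).1
      have h2 : 0 < (q : ℝ) := by nlinarith
      exact_mod_cast h2
    obtain ⟨hE1, hE2⟩ := hEGS (Gf f (l + (u : ℤ))) (DD P u) q hB hD hq1
    have hqu : (q : ℝ) ≤ (P.p - 1) * u + e / 6 * u := by
      have h1 := (abs_le.1 hcr.1).2
      linarith
    calc ∑' k : ℤ, volume {x | (2 : ℝ) ^ ((i : ℝ) + e / 2 * u) ≤ hn P Δ ct u q i k (Gf f (l + (u : ℤ))) x}
        ≤ ∑' k : ℤ, ENNReal.ofReal (1 / (2 : ℝ) ^ ((i : ℝ) + e / 2 * u) * ((2 : ℝ) ^ u * (35 / th i))) *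
          volume (Eg (Gf f (l + (u : ℤ))) (DD P u) q k) :=
          ENNReal.tsum_le_tsum fun k => TRW_one hMKV hPXH P Δ ct u q i k _ _ (by positivity) (hE1 k).1
      _ = ENNReal.ofReal (1 / (2 : ℝ) ^ ((i : ℝ) + e / 2 * u) * ((2 : ℝ) ^ u * (35 / th i))) *
          ∑' k : ℤ, volume (Eg (Gf f (l + (u : ℤ))) (DD P u) q k) := ENNReal.tsum_mul_left
      _ ≤ ENNReal.ofReal (1 / (2 : ℝ) ^ ((i : ℝ) + e / 2 * u) * ((2 : ℝ) ^ u * (35 / th i))) *
          (ENNReal.ofReal (2 ^ q) * volume (Gf f (l + (u : ℤ)))) := by gcongr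
      _ = ENNReal.ofReal (1 / (2 : ℝ) ^ ((i : ℝ) + e / 2 * u) * ((2 : ℝ) ^ u * (35 / th i)) * 2 ^ q) *
          volume (Gf f (l + (u : ℤ))) := by
          rw [← mul_assoc, ← ENNReal.ofReal_mul (by unfold th; positivity)]
      _ ≤ _ := by
          refine mul_le_mul_left (ENNReal.ofReal_le_ofReal ?_) _
          have h1 : 1 / (2 : ℝ) ^ ((i : ℝ) + e / 2 * u) * ((2 : ℝ) ^ u * (35 / th i)) * 2 ^ q =
              1260 * (2 : ℝ) ^ ((u : ℝ) + q - e / 2 * u) := by
            unfold th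
            have h2 : (2 : ℝ) ^ (-(i : ℤ)) = (2 : ℝ) ^ (-(i : ℝ)) := by
              rw [← Real.rpow_intCast]
              push_cast
              rfl
            rw [h2, Real.rpow_add (by norm_num), Real.rpow_neg (by norm_num), Real.rpow_sub (by norm_num),
              Real.rpow_add (by norm_num), Real.rpow_natCast, Real.rpow_natCast, Real.rpow_natCast]
            field_simp
            norm_num
          rw [h1]
          refine mul_le_mul_of_nonneg_left ?_ (by norm_num)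
          apply Real.rpow_le_rpow_of_exponent_le (by norm_num)
          linarith
  have key : ∀ (l : ℤ) (u : ℕ), 1 ≤ u →
      volume {x | ∃ (k : ℤ) (q i : ℕ), Crit P.p (e / 6) u q i ∧
        (2 : ℝ) ^ ((i : ℝ) + e / 2 * u) ≤ hn P Δ ct u q i k (Gf f (l + (u : ℤ))) x} ≤
      ENNReal.ofReal K * (ENNReal.ofReal ((2 : ℝ) ^ ((P.p - e / 4) * u)) *
        volume (Gf f (l + (u : ℤ)))) := by
    intro l u hu
    have hu1 : (1 : ℝ) ≤ u := by exact_mod_cast hu
    have hup : (u : ℝ) / P.p ≤ u := div_le_self (by positivity) hp1.le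
    classical
    have hsub : {x | ∃ (k : ℤ) (q i : ℕ), Crit P.p (e / 6) u q i ∧
        (2 : ℝ) ^ ((i : ℝ) + e / 2 * u) ≤ hn P Δ ct u q i k (Gf f (l + (u : ℤ))) x} ⊆
        ⋃ h ∈ (Finset.range (2 * u + 1) ×ˢ Finset.range (2 * u + 1)).filter
          (fun h : ℕ × ℕ => Crit P.p (e / 6) u h.1 h.2), ⋃ k : ℤ,
          {x | (2 : ℝ) ^ ((h.2 : ℝ) + e / 2 * u) ≤ hn P Δ ct u h.1 h.2 k (Gf f (l + (u : ℤ))) x} := by
      rintro x ⟨k, q, i, hc, hx⟩
      refine mem_iUnion₂.2 ⟨(q, i), ?_, mem_iUnion.2 ⟨k, hx⟩⟩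
      rw [Finset.mem_filter, Finset.mem_product, Finset.mem_range, Finset.mem_range]
      refine ⟨⟨?_, ?_⟩, hc⟩
      · have h1 := (abs_le.1 hc.1).2
        have h2 : (q : ℝ) < (2 * u + 1 : ℕ) := by
          push_cast
          nlinarith
        exact_mod_cast h2
      · have h1 := (abs_le.1 hc.2).2
        have h2 : (i : ℝ) < (2 * u + 1 : ℕ) := by
          push_cast
          nlinarith
        exact_mod_cast h2
    calc _ ≤ _ := measure_mono hsub
      _ ≤ ∑ h ∈ (Finset.range (2 * u + 1) ×ˢ Finset.range (2 * u + 1)).filter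
          (fun h : ℕ × ℕ => Crit P.p (e / 6) u h.1 h.2), volume (⋃ k : ℤ,
          {x | (2 : ℝ) ^ ((h.2 : ℝ) + e / 2 * u) ≤ hn P Δ ct u h.1 h.2 k (Gf f (l + (u : ℤ))) x}) :=
          measure_biUnion_finset_le _ _
      _ ≤ ∑ h ∈ (Finset.range (2 * u + 1) ×ˢ Finset.range (2 * u + 1)).filter
          (fun h : ℕ × ℕ => Crit P.p (e / 6) u h.1 h.2),
          ENNReal.ofReal (1260 * (2 : ℝ) ^ ((P.p - e / 3) * u)) * volume (Gf f (l + (u : ℤ))) := by
          refine Finset.sum_le_sum fun h hh => ?_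
          exact (measure_iUnion_le _).trans (one l u h.1 h.2 hu (Finset.mem_filter.1 hh).2)
      _ ≤ ((2 * u + 1 : ℕ) : ℝ≥0∞) ^ 2 *
          (ENNReal.ofReal (1260 * (2 : ℝ) ^ ((P.p - e / 3) * u)) * volume (Gf f (l + (u : ℤ)))) := by
          rw [Finset.sum_const, nsmul_eq_mul]
          refine mul_le_mul_left ?_ _
          have h1 := Finset.card_filter_le (Finset.range (2 * u + 1) ×ˢ Finset.range (2 * u + 1))
            (fun h : ℕ × ℕ => Crit P.p (e / 6) u h.1 h.2)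
          rw [Finset.card_product, Finset.card_range] at h1
          calc _ ≤ (((2 * u + 1) * (2 * u + 1) : ℕ) : ℝ≥0∞) := by exact_mod_cast h1
            _ = _ := by push_cast; ring
      _ = ENNReal.ofReal (((2 * u + 1 : ℕ) : ℝ) ^ 2 * (1260 * (2 : ℝ) ^ ((P.p - e / 3) * u))) *
          volume (Gf f (l + (u : ℤ))) := by
          rw [ENNReal.ofReal_mul (p := ((2 * u + 1 : ℕ) : ℝ) ^ 2) (by positivity),
            ENNReal.ofReal_pow (by positivity), ENNReal.ofReal_natCast, mul_assoc]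
      _ ≤ ENNReal.ofReal (K * (2 : ℝ) ^ ((P.p - e / 4) * u)) * volume (Gf f (l + (u : ℤ))) := by
          refine mul_le_mul_left (ENNReal.ofReal_le_ofReal ?_) _
          have h1 := TRW_poly he hu
          have h2 : (2 : ℝ) ^ (e / 12 * u) * (2 : ℝ) ^ ((P.p - e / 3) * u) =
              (2 : ℝ) ^ ((P.p - e / 4) * u) := by
            rw [← Real.rpow_add (by norm_num)]
            congr 1
            ring
          calc _ ≤ 9 * (48 / e) ^ 2 * (2 : ℝ) ^ (e / 12 * u) * (1260 * (2 : ℝ) ^ ((P.p - e / 3) * u)) :=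
                mul_le_mul_of_nonneg_right h1 (by positivity)
            _ = K * ((2 : ℝ) ^ (e / 12 * u) * (2 : ℝ) ^ ((P.p - e / 3) * u)) := by rw [hK]; ring
            _ = _ := by rw [h2]
      _ = _ := by
          rw [ENNReal.ofReal_mul hK0.le, mul_assoc]
  calc _ ≤ ∑' l : ℤ, ENNReal.ofReal ((2 : ℝ) ^ (P.p * l)) * ∑' u : ℕ,
        ENNReal.ofReal K * (ENNReal.ofReal ((2 : ℝ) ^ ((P.p - e / 4) * u)) *
          volume (Gf f (l + (u : ℤ)))) := by
        refine ENNReal.tsum_le_tsum fun l => ?_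
        refine mul_le_mul_right ?_ _
        refine (measure_mono (t := ⋃ u : ℕ, {x | 1 ≤ u ∧ ∃ (k : ℤ) (q i : ℕ), Crit P.p (e / 6) u q i ∧
          (2 : ℝ) ^ ((i : ℝ) + e / 2 * u) ≤ hn P Δ ct u q i k (Gf f (l + (u : ℤ))) x}) ?_).trans ?_
        · rintro x ⟨k, u, q, i, hu, hx⟩
          exact mem_iUnion.2 ⟨u, hu, k, q, i, hx⟩
        · refine (measure_iUnion_le _).trans (ENNReal.tsum_le_tsum fun u => ?_)
          by_cases hu : 1 ≤ u
          · refine (measure_mono ?_).trans (key l u hu)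
            rintro x ⟨_, hx⟩
            exact hx
          · have : {x : Pl | 1 ≤ u ∧ ∃ (k : ℤ) (q i : ℕ), Crit P.p (e / 6) u q i ∧
                (2 : ℝ) ^ ((i : ℝ) + e / 2 * u) ≤ hn P Δ ct u q i k (Gf f (l + (u : ℤ))) x} = ∅ := by
              ext x
              simp only [mem_ofPred_eq, mem_empty_iff_false, iff_false]
              exact fun h => hu h.1
            rw [this, measure_empty]
            exact zero_le
    _ = ENNReal.ofReal K * ∑' l : ℤ, ENNReal.ofReal ((2 : ℝ) ^ (P.p * l)) * ∑' u : ℕ,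
        ENNReal.ofReal ((2 : ℝ) ^ ((P.p - e / 4) * u)) * volume (Gf f (l + (u : ℤ))) := by
        rw [← ENNReal.tsum_mul_left]
        refine tsum_congr fun l => ?_
        rw [ENNReal.tsum_mul_left]
        ring
    _ ≤ ENNReal.ofReal K * (ENNReal.ofReal (1 / (1 - (2 : ℝ) ^ (-(e / 4)))) *
          ∫⁻ x, ENNReal.ofReal (f x) ^ P.p) := by
        gcongr
        exact (HL4 f hf.1 hf0).2.2.2 (e / 4) (by positivity)
    _ ≤ _ := by
        rw [← mul_assoc, ← ENNReal.ofReal_mul hK0.le]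
        gcongr
        exact le_max_right _ _

end Pool.Agent.Helper21.ES
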